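import Mathlib
import Pool.Agent.V11310.CL.Open
import Pool.Agent.TH167.SH.Segre
import Pool.Agent.H248R5.Gen

set_option autoImplicit false

/-!
# Segre's conjecture and the closure of the known classes under collisions

`Reached N0 d w` (`Pool.Agent.V11310.CL.Reached`): the multiset of the multiplicities `w` belongs, in
degree `d`, to the smallest class of multisets of multiplicities with one of the two signs (no curves,
independent conditions) which contains the comparable, the large and the good classes (`Base`) and is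
closed under collisions (a point of multiplicity `μ` may be replaced by points `M'` if `M'` is in the
class in degree `μ - 1`), quadratic transformations, doubling (four points of multiplicity `m` for one
point of the multiplicities `2 m` and `2 m + 1`), adding or removing points and changing the degree.

Let `(d; w)` be any class and let the points be general. The linear system is not special if `(d; w)`
is reached, or if finitely many reflections carry `(d; w)` to a standard class which is reached. If it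
is special, then twice a `(-1)`-curve is a fixed part of it, or, after the removal of disjoint
`(-1)`-curves, each taken once, and finitely many quadratic transformations, it is a special standard
class of the same dimension which is not reached.
-/

namespace Pool.Agent.Results.MP_cfebfb_ag.SegreCollisionClosure

open MvPolynomial Pool.Agent.TH167.SHDefs
open Pool.Agent.Y536.SH (Standard hh_full)
open Pool.Agent.V11310.CL

theorem nonspecial_of {n : ℕ} {P : Fin n → Fin 2 → ℂ} {d : ℕ} {w : Fin n → ℕ}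
    (h : Pool.Agent.H932R3.ExpDim ℂ w P d) : ¬ Special P d w := by
  have h1 : Module.finrank ℂ ↥(sys P d w) =
      Nat.choose (d + 2) 2 - ∑ i, Nat.choose (w i + 1) 2 := h
  have h2 : ∑ i, ((w i + 1).choose 2 : ℤ) = ((∑ i, Nat.choose (w i + 1) 2 : ℕ) : ℤ) := by
    push_cast
    rfl
  unfold Special dimL virtdim
  rw [h1, h2]
  push Not
  omega

theorem result : ∃ N0 : ℕ, ∀ (n : ℕ) (_ : 4 ≤ n) (d : ℕ) (w : Fin n → ℕ),
    (Base N0 d w → Reached N0 d w) ∧
    ∃ F : MvPolynomial (Fin n × Fin 2) ℂ, F ≠ 0 ∧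
      ∀ P : Fin n → Fin 2 → ℂ, eval (fun ij : Fin n × Fin 2 => P ij.1 ij.2) F ≠ 0 →
        (Covered N0 d w → ¬ Special P d w) ∧
        (Special P d w →
          (∃ (G : MvPolynomial (Fin 3) ℂ) (e : ℕ) (u : Fin n → ℕ),
            MinusOne P G e u ∧ inter d w e u ≤ -2 ∧ ∀ f ∈ sys P d w, G ^ 2 ∣ f) ∨
          ∃ (d'' : ℕ) (w'' : Fin n → ℕ) (k : ℕ) (G : Fin k → MvPolynomial (Fin 3) ℂ)
            (e : Fin k → ℕ) (u : Fin k → Fin n → ℕ) (d' : ℕ) (w' : Fin n → ℕ),
            Decomp P d w d'' w'' G e u (fun _ => 1) ∧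
            Relation.ReflTransGen Quadratic (d'', w'') (d', w') ∧ Standard d' w' ∧
            dimL P d' w' = dimL P d w ∧ Special P d' w' ∧ ¬ Reached N0 d' w') := by
  obtain ⟨N0, hN0⟩ := Pool.Agent.Y939.NC.reg_exp
  refine ⟨N0, fun n hn d w => ⟨reached_of_base, ?_⟩⟩
  obtain ⟨F1, hF1, hF1'⟩ : ∃ F : MvPolynomial (Fin n × Fin 2) ℂ, F ≠ 0 ∧
      ∀ P : Fin n → Fin 2 → ℂ, eval (fun ij : Fin n × Fin 2 => P ij.1 ij.2) F ≠ 0 →
        (Covered N0 d w → ¬ Special P d w) := by
    by_cases h : Covered N0 d w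
    · obtain ⟨F, hF, hF'⟩ := covered_open hN0 hn h
      exact ⟨F, hF, fun P hP _ => nonspecial_of (hF' P hP)⟩
    · exact ⟨1, one_ne_zero, fun P _ h' => absurd h' h⟩
  obtain ⟨r, rfl⟩ : ∃ r, n = r + 4 := ⟨n - 4, by omega⟩
  obtain ⟨F, hF, hF'⟩ := hh_full (Q := fun d' w' => Reached N0 d' w')
    (fun hP d1 w1 hr hG => reached_exp hN0 hG hP) d w
  refine ⟨F1 * (F.map (algebraMap ℚ ℂ) * Pool.Agent.H248R5.disc ℂ (r + 4)),
    mul_ne_zero hF1 (mul_ne_zero (Pool.Agent.TH167.SH.map_ne hF)
      (Pool.Agent.H248R5.disc_ne ℂ (r + 4))), fun P hP => ?_⟩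
  rw [map_mul, map_mul] at hP
  have hP1 := left_ne_zero_of_mul hP
  have hP2 := left_ne_zero_of_mul (right_ne_zero_of_mul hP)
  have hinj := Pool.Agent.H248R5.inj_of_disc (right_ne_zero_of_mul (right_ne_zero_of_mul hP))
  rw [Pool.Agent.TH167.SH.evP_eval] at hP2
  refine ⟨hF1' P hP1, fun hs => ?_⟩
  rw [Pool.Agent.TH167.SH.special_conv] at hs
  have hcur : ∀ {G : MvPolynomial (Fin 3) ℂ} {e : ℕ} {u : Fin (r + 4) → ℕ}, MinusOne P G e u →
      inter d w e u ≤ -2 → ∃ (G : MvPolynomial (Fin 3) ℂ) (e : ℕ) (u : Fin (r + 4) → ℕ),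
        MinusOne P G e u ∧ inter d w e u ≤ -2 ∧ ∀ f ∈ sys P d w, G ^ 2 ∣ f :=
    fun {G e u} h1 h2 => ⟨G, e, u, h1, h2, fun f hf =>
      Pool.Agent.TH167.SH.curve_sq_dvd hinj h1 h2 hf⟩
  rcases hF' ℂ P hP2 hs with h | ⟨d', w', k, C, e, u, N, d1, w1, h1, h2, h3, h4, h5, h6⟩
  · left
    obtain ⟨G, e, u, c1, c2⟩ :=
      Pool.Agent.TH167.SH.mspecial_curve ((Pool.Agent.TH167.SH.mspecial_conv P d w).2 h)
    exact hcur c1 c2
  · by_cases hN : ∃ a, 2 ≤ N a
    · left
      obtain ⟨a, ha⟩ := hN
      refine hcur (Pool.Agent.TH167.SH.minusOne_iff.2 (h1.exc a)) ?_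
      rw [Pool.Agent.TH167.SH.inter_eq, h1.neg a]
      omega
    · right
      push Not at hN
      have hN1 : N = fun _ => 1 := by
        funext a
        have := h1.pos a
        have := hN a
        omega
      subst hN1
      refine ⟨d', w', k, C, e, u, d1, w1, Pool.Agent.TH167.SH.decomp_iff.2 h1,
        Pool.Agent.TH167.SH.chain_conv h2, h3, ?_,
        (Pool.Agent.TH167.SH.special_conv P d1 w1).2 h4, h6⟩
      rw [Pool.Agent.TH167.SH.dimL_eq, Pool.Agent.TH167.SH.dimL_eq, h5]

end Pool.Agent.Results.MP_cfebfb_ag.SegreCollisionClosure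

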